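import Pool.Agent.Helper47.Cyc.Defs

/-! Unions and products of families with symmetric chain decompositions. -/

namespace Pool.Agent.Helper47.Cyc

variable {α : Type} [DecidableEq α]

theorem HasSCD.empty (n : ℕ) : HasSCD n (∅ : Set (Finset α)) :=
  ⟨∅, by simp, by simp, by simp⟩

theorem IsCh.hasSCD {n : ℕ} {S : Set (Finset α)} (h : IsCh n S) : HasSCD n S :=
  ⟨{S}, by simpa using h, by simp, by simp⟩

theorem HasSCD.iUnion {ι : Type*} {n : ℕ} {S : ι → Set (Finset α)} (h : ∀ i, HasSCD n (S i))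
    (hd : Pairwise fun i j => Disjoint (S i) (S j)) : HasSCD n (⋃ i, S i) := by
  choose C hC1 hC2 hC3 using h
  refine ⟨⋃ i, C i, ?_, ?_, ?_⟩
  · intro c hc
    obtain ⟨i, hi⟩ := Set.mem_iUnion.1 hc
    exact hC1 i c hi
  · intro c hc c' hc' hne
    obtain ⟨i, hi⟩ := Set.mem_iUnion.1 hc
    obtain ⟨j, hj⟩ := Set.mem_iUnion.1 hc'
    by_cases hij : i = j
    · subst hij
      exact hC2 i hi hj hne
    · have h1 : c ⊆ S i := by
        rw [← hC3 i]
        exact Set.subset_sUnion_of_mem hi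
      have h2 : c' ⊆ S j := by
        rw [← hC3 j]
        exact Set.subset_sUnion_of_mem hj
      exact (hd hij).mono h1 h2
  · rw [Set.sUnion_iUnion]
    exact Set.iUnion_congr fun i => hC3 i

/-- The product of two chains. -/
theorem IsCh.prod {n m : ℕ} {S T : Set (Finset α)} {A B : Finset α} (hAB : Disjoint A B)
    (hS : IsCh n S) (hT : IsCh m T) (hSA : ∀ s ∈ S, s ⊆ A) (hTB : ∀ t ∈ T, t ⊆ B) :
    HasSCD (n + m) {u | u ⊆ A ∪ B ∧ u ∩ A ∈ S ∧ u ∩ B ∈ T} := by
  obtain ⟨a, b, f, hab, habn, hf1, hf2, rfl⟩ := hS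
  obtain ⟨a', b', g, hab', habm, hg1, hg2, rfl⟩ := hT
  obtain ⟨p, rfl⟩ := Nat.exists_eq_add_of_le hab
  obtain ⟨q, rfl⟩ := Nat.exists_eq_add_of_le hab'
  have hfA : ∀ u, u ≤ p → f (a + u) ⊆ A := fun u hu => hSA _ ⟨a + u, ⟨by omega, by omega⟩, rfl⟩
  have hgB : ∀ v, v ≤ q → g (a' + v) ⊆ B := fun v hv => hTB _ ⟨a' + v, ⟨by omega, by omega⟩, rfl⟩
  have hcapA : ∀ u v, u ≤ p → v ≤ q → (f (a + u) ∪ g (a' + v)) ∩ A = f (a + u) := by
    intro u v hu hv
    rw [Finset.union_inter_distrib_right, Finset.inter_eq_left.2 (hfA u hu),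
      Finset.disjoint_iff_inter_eq_empty.1 (Finset.disjoint_of_subset_left (hgB v hv) hAB.symm),
      Finset.union_empty]
  have hcapB : ∀ u v, u ≤ p → v ≤ q → (f (a + u) ∪ g (a' + v)) ∩ B = g (a' + v) := by
    intro u v hu hv
    rw [Finset.union_inter_distrib_right, Finset.inter_eq_left.2 (hgB v hv),
      Finset.disjoint_iff_inter_eq_empty.1 (Finset.disjoint_of_subset_left (hfA u hu) hAB),
      Finset.empty_union]
  have hcard : ∀ u v, u ≤ p → v ≤ q → (f (a + u) ∪ g (a' + v)).card = (a + u) + (a' + v) := by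
    intro u v hu hv
    rw [Finset.card_union_of_disjoint, hf1 _ (by omega) (by omega), hg1 _ (by omega) (by omega)]
    exact Finset.disjoint_of_subset_left (hfA u hu)
      (Finset.disjoint_of_subset_right (hgB v hv) hAB)
  -- the chains
  let H : ℕ → ℕ → Finset α := fun k j =>
    f (a + (min (j - (a + a')) p - k)) ∪ g (a' + (k + ((j - (a + a')) - p)))
  let E : Fin (min p q + 1) → Set (Finset α) := fun k =>
    H k '' Set.Icc (a + a' + k) (a + a' + (p + q - k))
  have hE : ∀ k, IsCh (n + m) (E k) := by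
    rintro ⟨k, hk⟩
    have hkp : k ≤ p := by
      have : k ≤ min p q := Nat.lt_succ_iff.1 hk
      exact this.trans (min_le_left _ _)
    have hkq : k ≤ q := by
      have : k ≤ min p q := Nat.lt_succ_iff.1 hk
      exact this.trans (min_le_right _ _)
    refine ⟨a + a' + k, a + a' + (p + q - k), H k, by omega, by omega, ?_, ?_, rfl⟩
    · intro j h1 h2
      simp only [H]
      rw [hcard _ _ (by omega) (by omega)]
      omega
    · intro j h1 h2
      simp only [H]
      by_cases hr : j - (a + a') < p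
      · have e1 : min (j + 1 - (a + a')) p - k = (min (j - (a + a')) p - k) + 1 := by omega
        have e2 : k + (j + 1 - (a + a') - p) = k + (j - (a + a') - p) := by omega
        rw [e1, e2]
        exact Finset.union_subset_union (hf2 _ (by omega) (by omega)) (Finset.Subset.refl _)
      · have e1 : min (j + 1 - (a + a')) p - k = min (j - (a + a')) p - k := by omega
        have e2 : k + (j + 1 - (a + a') - p) = (k + (j - (a + a') - p)) + 1 := by omega
        rw [e1, e2]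
        exact Finset.union_subset_union (Finset.Subset.refl _) (hg2 _ (by omega) (by omega))
  have hset : {u | u ⊆ A ∪ B ∧ u ∩ A ∈ f '' Set.Icc a (a + p) ∧ u ∩ B ∈ g '' Set.Icc a' (a' + q)} =
      ⋃ k, E k := by
    ext x
    constructor
    · rintro ⟨hx, ⟨i, ⟨hi1, hi2⟩, hi⟩, ⟨j, ⟨hj1, hj2⟩, hj⟩⟩
      obtain ⟨u, rfl⟩ := Nat.exists_eq_add_of_le hi1
      obtain ⟨v, rfl⟩ := Nat.exists_eq_add_of_le hj1
      refine Set.mem_iUnion.2 ⟨⟨min v (p - u), by omega⟩, ?_⟩
      refine ⟨a + a' + (u + v), ⟨by simp only; omega, by simp only; omega⟩, ?_⟩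
      simp only [H]
      have e1 : min (a + a' + (u + v) - (a + a')) p - min v (p - u) = u := by omega
      have e2 : min v (p - u) + (a + a' + (u + v) - (a + a') - p) = v := by omega
      rw [e1, e2, hi, hj, ← Finset.inter_union_distrib_left]
      exact Finset.inter_eq_left.2 hx
    · intro hx
      obtain ⟨⟨k, hk⟩, j, ⟨hj1, hj2⟩, rfl⟩ := Set.mem_iUnion.1 hx
      simp only at hj1 hj2
      have hkp : k ≤ p := by
        have : k ≤ min p q := Nat.lt_succ_iff.1 hk
        exact this.trans (min_le_left _ _)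
      have hkq : k ≤ q := by
        have : k ≤ min p q := Nat.lt_succ_iff.1 hk
        exact this.trans (min_le_right _ _)
      simp only [H]
      have hu : min (j - (a + a')) p - k ≤ p := by omega
      have hv : k + (j - (a + a') - p) ≤ q := by omega
      refine ⟨?_, ?_, ?_⟩
      · exact Finset.union_subset_union (hfA _ hu) (hgB _ hv)
      · rw [hcapA _ _ hu hv]
        exact ⟨_, ⟨by omega, by omega⟩, rfl⟩
      · rw [hcapB _ _ hu hv]
        exact ⟨_, ⟨by omega, by omega⟩, rfl⟩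
  rw [hset]
  refine HasSCD.iUnion (fun k => (hE k).hasSCD) ?_
  rintro ⟨k, hk⟩ ⟨k', hk'⟩ hne
  rw [Set.disjoint_left]
  rintro x ⟨j, ⟨hj1, hj2⟩, rfl⟩ ⟨j', ⟨hj1', hj2'⟩, heq⟩
  simp only at hj1 hj2 hj1' hj2'
  apply hne
  have hkp : k ≤ p := by
    have : k ≤ min p q := Nat.lt_succ_iff.1 hk
    exact this.trans (min_le_left _ _)
  have hkq : k ≤ q := by
    have : k ≤ min p q := Nat.lt_succ_iff.1 hk
    exact this.trans (min_le_right _ _)
  have hkp' : k' ≤ p := by
    have : k' ≤ min p q := Nat.lt_succ_iff.1 hk'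
    exact this.trans (min_le_left _ _)
  have hkq' : k' ≤ q := by
    have : k' ≤ min p q := Nat.lt_succ_iff.1 hk'
    exact this.trans (min_le_right _ _)
  simp only [H] at heq
  have hu : min (j - (a + a')) p - k ≤ p := by omega
  have hv : k + (j - (a + a') - p) ≤ q := by omega
  have hu' : min (j' - (a + a')) p - k' ≤ p := by omega
  have hv' : k' + (j' - (a + a') - p) ≤ q := by omega
  have h1 := congrArg (fun z => (z ∩ A).card) heq
  have h2 := congrArg (fun z => (z ∩ B).card) heq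
  rw [hcapA _ _ hu hv, hcapA _ _ hu' hv', hf1 _ (by omega) (by omega),
    hf1 _ (by omega) (by omega)] at h1
  rw [hcapB _ _ hu hv, hcapB _ _ hu' hv', hg1 _ (by omega) (by omega),
    hg1 _ (by omega) (by omega)] at h2
  simp only [Fin.mk.injEq]
  omega

theorem HasSCD.prod {n m : ℕ} {S T : Set (Finset α)} {A B : Finset α} (hAB : Disjoint A B)
    (hS : HasSCD n S) (hT : HasSCD m T) (hSA : ∀ s ∈ S, s ⊆ A) (hTB : ∀ t ∈ T, t ⊆ B) :
    HasSCD (n + m) {u | u ⊆ A ∪ B ∧ u ∩ A ∈ S ∧ u ∩ B ∈ T} := by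
  obtain ⟨C, hC1, hC2, rfl⟩ := hS
  obtain ⟨D, hD1, hD2, rfl⟩ := hT
  have hset : {u | u ⊆ A ∪ B ∧ u ∩ A ∈ ⋃₀ C ∧ u ∩ B ∈ ⋃₀ D} =
      ⋃ p : C × D, {u | u ⊆ A ∪ B ∧ u ∩ A ∈ (p.1 : Set (Finset α)) ∧
        u ∩ B ∈ (p.2 : Set (Finset α))} := by
    ext u
    simp only [Set.mem_ofPred_eq, Set.mem_sUnion, Set.mem_iUnion, Prod.exists, Subtype.exists]
    constructor
    · rintro ⟨h1, ⟨c, hc, huc⟩, ⟨d, hd, hud⟩⟩
      exact ⟨c, hc, d, hd, h1, huc, hud⟩
    · rintro ⟨c, hc, d, hd, h1, huc, hud⟩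
      exact ⟨h1, ⟨c, hc, huc⟩, ⟨d, hd, hud⟩⟩
  rw [hset]
  refine HasSCD.iUnion (fun p => ?_) ?_
  · exact IsCh.prod hAB (hC1 _ p.1.2) (hD1 _ p.2.2)
      (fun s hs => hSA s (Set.mem_sUnion_of_mem hs p.1.2))
      (fun t ht => hTB t (Set.mem_sUnion_of_mem ht p.2.2))
  · rintro ⟨⟨c, hc⟩, ⟨d, hd⟩⟩ ⟨⟨c', hc'⟩, ⟨d', hd'⟩⟩ hne
    rw [Set.disjoint_left]
    rintro u ⟨-, h2, h3⟩ ⟨-, h2', h3'⟩
    simp only at h2 h3 h2' h3'
    apply hne
    have e1 : c = c' := by
      by_contra h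
      exact Set.disjoint_left.1 (hC2 hc hc' h) h2 h2'
    have e2 : d = d' := by
      by_contra h
      exact Set.disjoint_left.1 (hD2 hd hd' h) h3 h3'
    subst e1 e2
    rfl

end Pool.Agent.Helper47.Cyc
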